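import Mathlib

open Topology Filter Set

namespace Pool.Agent.Results.MP_e403d1_gt.ClosedSubgroupCounterexample

/-- `(1/n)U = {x : kx ∈ U for k = 1, …, n}`. -/
def oneDiv {G : Type*} [AddCommGroup G] (n : ℕ) (U : Set G) : Set G :=
  {x | ∀ k : ℕ, 1 ≤ k → k ≤ n → k • x ∈ U}

/-- Minimal abelian group: a Hausdorff topological group none of whose strictly coarser group
topologies is Hausdorff. (`τ ≤ σ` says that `σ` is coarser than `τ`.) -/
def IsMinimalGroup (G : Type*) [AddCommGroup G] [τ : TopologicalSpace G] : Prop :=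
  T2Space G ∧ IsTopologicalAddGroup G ∧
    ∀ σ : TopologicalSpace G, @IsTopologicalAddGroup G σ _ → @T2Space G σ → τ ≤ σ → σ = τ

/-- Uniformly free from small subgroups. -/
def IsUFSS (G : Type*) [AddCommGroup G] [TopologicalSpace G] : Prop :=
  T2Space G ∧ IsTopologicalAddGroup G ∧
    ∃ U ∈ 𝓝 (0 : G), -U = U ∧ (𝓝 (0 : G)).HasBasis (fun n : ℕ => 1 ≤ n) (fun n => oneDiv n U)

/-- Almost minimal: there is a closed subgroup `N`, minimal in the subspace topology, such that
the quotient group `G ⧸ N`, with the quotient topology, is UFSS. -/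
def IsAlmostMinimal (G : Type*) [AddCommGroup G] [TopologicalSpace G] : Prop :=
  ∃ N : AddSubgroup G, IsClosed (N : Set G) ∧ IsMinimalGroup N ∧ IsUFSS (G ⧸ N)

/-- basic neighbourhoods of zero in `J → ZMod 4` -/
theorem basis_pi {J : Type*} : (𝓝 (0 : J → ZMod 4)).HasBasis (fun _ : Finset J => True)
    (fun F => {k | ∀ j ∈ F, k j = 0}) := by
  classical
  rw [hasBasis_iff]
  intro W
  constructor
  · intro hW
    rw [nhds_pi, Filter.mem_pi] at hW
    obtain ⟨I, hI, t, ht, hs⟩ := hW
    refine ⟨hI.toFinset, trivial, fun k hk => hs ?_⟩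
    intro j hj
    have : k j = 0 := hk j (by simpa using hj)
    rw [this]
    exact mem_of_mem_nhds (ht j)
  · rintro ⟨F, -, hF⟩
    refine mem_of_superset ?_ hF
    have : {k : J → ZMod 4 | ∀ j ∈ F, k j = 0} = ⋂ j ∈ F, {k | k j = 0} := by
      ext k; simp
    rw [this]
    refine (biInter_finset_mem F).2 fun j _ => ?_
    have h1 : Continuous (fun k : J → ZMod 4 => k j) := continuous_apply j
    exact (isOpen_discrete ({0} : Set (ZMod 4))).preimage h1 |>.mem_nhds rfl

theorem minimal_of_inducing {N : Type*} [AddCommGroup N] [τ : TopologicalSpace N] {J : Type*}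
    (e : N →+ (J → ZMod 4)) (he : IsInducing e) (hinj : Function.Injective e)
    (hr : ∀ k : J → ZMod 4, (∀ j, 2 * k j = 0) → ∃ n, e n = k) : IsMinimalGroup N := by
  classical
  have hemb : IsEmbedding e := ⟨he, hinj⟩
  have hT2 : T2Space N := hemb.t2Space
  have hgrp : IsTopologicalAddGroup N := he.topologicalAddGroup e
  refine ⟨hT2, hgrp, ?_⟩
  -- the set of elements of order dividing two
  set S : Set N := {x | ∀ j, 2 * e x j = 0} with hS
  have hSc : IsCompact S := by
    have hK : IsCompact {k : J → ZMod 4 | ∀ j, 2 * k j = 0} := by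
      have : {k : J → ZMod 4 | ∀ j, 2 * k j = 0} = Set.pi univ (fun _ => {a | 2 * a = 0}) := by
        ext k; simp
      rw [this]
      exact isCompact_univ_pi fun j => (Set.toFinite _).isCompact
    exact (he.isCompact_preimage_iff (K := {k : J → ZMod 4 | ∀ j, 2 * k j = 0}) (by
      intro k hk
      obtain ⟨n, hn⟩ := hr k hk
      exact ⟨n, hn⟩)).2 hK
  have hbasis : (𝓝 (0 : N)).HasBasis (fun _ : Finset J => True)
      (fun F => {x | ∀ j ∈ F, e x j = 0}) := by
    have h1 := he.nhds_eq_comap (0 : N)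
    rw [map_zero] at h1
    rw [h1]
    exact basis_pi.comap e
  have hZ : ∀ F : Finset J, IsCompact (S \ {x | ∀ j ∈ F, e x j = 0}) := by
    intro F
    have hWo : IsOpen {x : N | ∀ j ∈ F, e x j = 0} := by
      have h2 : IsOpen {k : J → ZMod 4 | ∀ j ∈ F, k j = 0} := by
        have : {k : J → ZMod 4 | ∀ j ∈ F, k j = 0} = ⋂ j ∈ F, {k | k j = 0} := by
          ext k; simp
        rw [this]
        refine isOpen_biInter_finset fun j _ => ?_
        have h1 : Continuous (fun k : J → ZMod 4 => k j) := continuous_apply j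
        exact (isOpen_discrete ({0} : Set (ZMod 4))).preimage h1
      exact h2.preimage he.continuous
    exact hSc.diff hWo
  clear_value S
  intro σ hσg hσ2 hle
  have hid : @Continuous N N τ σ id := continuous_id_of_le hle
  -- the key fact on S
  have key : ∀ F : Finset J, ∃ A ∈ @nhds N σ 0, ∀ x ∈ A, x ∈ S → ∀ j ∈ F, e x j = 0 := by
    intro F
    have hZσ : @IsCompact N σ (id '' (S \ {x | ∀ j ∈ F, e x j = 0})) :=
      @IsCompact.image N N τ σ _ id (hZ F) hid
    rw [image_id] at hZσ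
    have hZcl : @IsClosed N σ (S \ {x | ∀ j ∈ F, e x j = 0}) := @IsCompact.isClosed N σ hσ2 _ hZσ
    refine ⟨(S \ {x | ∀ j ∈ F, e x j = 0})ᶜ, ?_, ?_⟩
    · refine @IsOpen.mem_nhds N σ 0 _ (@IsClosed.isOpen_compl N σ _ hZcl) ?_
      intro h0
      apply h0.2
      intro j _
      simp
    · intro x hx hxS
      by_contra hcon
      exact hx ⟨hxS, hcon⟩
  refine @IsTopologicalAddGroup.ext N _ σ τ hσg hgrp ?_
  apply le_antisymm
  · -- σ-nhds are finer
    rw [hbasis.ge_iff]
    intro F _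
    obtain ⟨A, hA, hAF⟩ := key F
    -- B with B - B ⊆ A
    have hsub : Tendsto (fun p : N × N => p.1 - p.2) (@nhds N σ 0 ×ˢ @nhds N σ 0) (@nhds N σ 0) := by
      have := @Continuous.tendsto _ _ (@instTopologicalSpaceProd N N σ σ) σ _
        (@continuous_sub N σ _ (@IsTopologicalAddGroup.to_continuousSub N σ _ hσg)) ((0 : N), (0 : N))
      rw [@nhds_prod_eq N N σ σ] at this
      simpa using this
    obtain ⟨B, hB, hBA⟩ : ∃ B ∈ @nhds N σ 0, ∀ a ∈ B, ∀ b ∈ B, a - b ∈ A := by
      have h3 := hsub hA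
      rw [Filter.mem_map, Filter.mem_prod_self_iff] at h3
      obtain ⟨B, hB, h4⟩ := h3
      exact ⟨B, hB, fun a ha b hb => h4 (Set.mk_mem_prod ha hb)⟩
    have hBτ : B ∈ @nhds N τ 0 := (nhds_mono hle) hB
    obtain ⟨F', -, hF'⟩ := hbasis.mem_iff.1 hBτ
    obtain ⟨A', hA', hA'F⟩ := key (F ∪ F')
    have hadd : Tendsto (fun x : N => x + x) (@nhds N σ 0) (@nhds N σ 0) := by
      have := @Continuous.tendsto _ _ (@instTopologicalSpaceProd N N σ σ) σ _
        (@continuous_add N σ _ (hσg.toContinuousAdd)) ((0 : N), (0 : N))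
      rw [@nhds_prod_eq N N σ σ] at this
      have h5 : Tendsto (fun x : N => (x, x)) (@nhds N σ 0) (@nhds N σ 0 ×ˢ @nhds N σ 0) :=
        tendsto_id.prodMk tendsto_id
      have h6 := this.comp h5
      simp only [add_zero] at h6
      exact h6
    have hQ : {x : N | x + x ∈ A'} ∈ @nhds N σ 0 := hadd hA'
    filter_upwards [hB, hQ] with x hxB hxQ
    have h4 : ∀ a : ZMod 4, 2 * (a + a) = 0 := by decide
    have hxx : x + x ∈ S := by
      rw [hS]
      intro j
      rw [map_add, Pi.add_apply]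
      exact h4 _
    have hx2 : ∀ j ∈ F ∪ F', 2 * e x j = 0 := by
      intro j hj
      have := hA'F (x + x) hxQ hxx j hj
      rw [map_add, Pi.add_apply] at this
      rw [two_mul]; exact this
    obtain ⟨s, hs⟩ := hr (fun j => if j ∈ F ∪ F' then e x j else 0) (by
      intro j
      by_cases hj : j ∈ F ∪ F'
      · simp only [hj, if_true]; exact hx2 j hj
      · simp only [hj, if_false, mul_zero])
    have hsS : s ∈ S := by
      rw [hS]
      intro j
      rw [hs]
      by_cases hj : j ∈ F ∪ F'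
      · simp only [hj, if_true]; exact hx2 j hj
      · simp only [hj, if_false, mul_zero]
    have hxs : ∀ j ∈ F ∪ F', e (x - s) j = 0 := by
      intro j hj
      rw [map_sub, Pi.sub_apply, hs]
      simp only [hj, if_true, sub_self]
    have hxsB : x - s ∈ B := hF' (fun j hj => hxs j (Finset.mem_union_right _ hj))
    have hsA : s ∈ A := by
      have := hBA x hxB (x - s) hxsB
      simpa using this
    intro j hj
    have h6 := hAF s hsA hsS j hj
    have h7 := hxs j (Finset.mem_union_left _ hj)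
    rw [map_sub, Pi.sub_apply, h6, sub_zero] at h7
    exact h7
  · exact nhds_mono hle

theorem ufss_quotient {G T : Type*} [AddCommGroup G] [TopologicalSpace G]
    [IsTopologicalAddGroup G] [NormedAddCommGroup T] (hT : ∀ (k : ℕ) (t : T), ‖k • t‖ = k * ‖t‖)
    (f : G →+ T) (hf : Continuous f) (N : AddSubgroup G) (hN : ∀ g, g ∈ N ↔ f g = 0)
    (hW : ∀ W ∈ 𝓝 (0 : G), ∃ ε > 0, ∀ g, ‖f g‖ < ε → ∃ n ∈ N, g - n ∈ W) :
    IsClosed (N : Set G) ∧ IsUFSS (G ⧸ N) := by
  have hcl : IsClosed (N : Set G) := by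
    have : (N : Set G) = f ⁻¹' {0} := by
      ext g; simp [hN]
    rw [this]
    exact isClosed_singleton.preimage hf
  refine ⟨hcl, inferInstance, inferInstance, ?_⟩
  have hker : N ≤ f.ker := fun g hg => (hN g).1 hg
  set F : G ⧸ N →+ T := QuotientAddGroup.lift N f hker with hF
  have hFc : Continuous F := hf.quotient_lift _
  have hFmk : ∀ g : G, F (g : G ⧸ N) = f g := fun g => rfl
  set U : Set (G ⧸ N) := {q | ‖F q‖ ≤ 1} with hU
  have hball : ∀ r : ℝ, 0 < r → {q : G ⧸ N | ‖F q‖ ≤ r} ∈ 𝓝 (0 : G ⧸ N) := by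
    intro r hr
    have h1 : Tendsto (fun q : G ⧸ N => ‖F q‖) (𝓝 0) (𝓝 ‖F 0‖) := (hFc.norm).tendsto 0
    rw [map_zero, norm_zero] at h1
    filter_upwards [h1 (Iio_mem_nhds hr)] with q hq
    exact le_of_lt hq
  have hdiv : ∀ n : ℕ, 1 ≤ n → oneDiv n U = {q : G ⧸ N | ‖F q‖ ≤ 1 / n} := by
    intro n hn
    have hn0 : (0 : ℝ) < n := by exact_mod_cast hn
    ext q
    simp only [oneDiv, Set.mem_ofPred_eq, hU, map_nsmul, hT]
    constructor
    · intro h
      have := h n hn le_rfl
      rw [le_div_iff₀ hn0]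
      linarith
    · intro h k _ hk
      have hk' : (k : ℝ) ≤ n := by exact_mod_cast hk
      rw [le_div_iff₀ hn0] at h
      have h0 : 0 ≤ ‖F q‖ := norm_nonneg _
      nlinarith
  refine ⟨U, hball 1 one_pos, ?_, ?_⟩
  · ext q
    simp [hU]
  · rw [hasBasis_iff]
    intro W
    constructor
    · intro hWn
      have hpre : (QuotientAddGroup.mk : G → G ⧸ N) ⁻¹' W ∈ 𝓝 (0 : G) := by
        have : Continuous (QuotientAddGroup.mk : G → G ⧸ N) := QuotientAddGroup.continuous_mk
        exact this.continuousAt.preimage_mem_nhds (by simpa using hWn)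
      obtain ⟨ε, hε, h⟩ := hW _ hpre
      obtain ⟨n, hn⟩ := exists_nat_one_div_lt hε
      refine ⟨n + 1, by omega, ?_⟩
      rw [hdiv (n + 1) (by omega)]
      intro q hq
      obtain ⟨g, rfl⟩ := QuotientAddGroup.mk_surjective q
      have hg : ‖f g‖ < ε := by
        have : ‖f g‖ ≤ 1 / ((n + 1 : ℕ) : ℝ) := hq
        push_cast at this
        linarith
      obtain ⟨m, hm, hgm⟩ := h g hg
      have : (QuotientAddGroup.mk (g - m) : G ⧸ N) = QuotientAddGroup.mk g := by
        rw [QuotientAddGroup.eq]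
        simpa using hm
      rw [← this]
      exact hgm
    · rintro ⟨n, hn, hnW⟩
      refine mem_of_superset ?_ hnW
      rw [hdiv n hn]
      exact hball _ (by positivity)

/-- index set -/
abbrev Ix : Type := ℕ × ℕ

/-- weights -/
noncomputable def wt (x : Ix) : ℝ := (1 / 2 : ℝ) ^ x.2

theorem wt_pos (x : Ix) : 0 < wt x := by unfold wt; positivity

/-- weighted `ℓ¹` norm of a finitely supported integer family -/
noncomputable def nrm (t : Ix →₀ ℤ) : ℝ := t.sum fun x a => |(a : ℝ)| * wt x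

theorem nrm_eq (t : Ix →₀ ℤ) (s : Finset Ix) (h : t.support ⊆ s) :
    nrm t = ∑ x ∈ s, |(t x : ℝ)| * wt x :=
  Finsupp.sum_of_support_subset t h _ (by simp)

theorem le_nrm (t : Ix →₀ ℤ) (x : Ix) : |(t x : ℝ)| * wt x ≤ nrm t := by
  classical
  rw [nrm_eq t (insert x t.support) (Finset.subset_insert _ _)]
  exact Finset.single_le_sum (f := fun x => |(t x : ℝ)| * wt x)
    (fun y _ => mul_nonneg (abs_nonneg _) (wt_pos y).le) (Finset.mem_insert_self _ _)

theorem nrm_add (s t : Ix →₀ ℤ) : nrm (s + t) ≤ nrm s + nrm t := by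
  classical
  rw [nrm_eq (s + t) (s.support ∪ t.support) Finsupp.support_add,
    nrm_eq s (s.support ∪ t.support) Finset.subset_union_left,
    nrm_eq t (s.support ∪ t.support) Finset.subset_union_right, ← Finset.sum_add_distrib]
  refine Finset.sum_le_sum fun x _ => ?_
  rw [← add_mul]
  refine mul_le_mul_of_nonneg_right ?_ (wt_pos x).le
  rw [Finsupp.add_apply]
  push_cast
  exact abs_add_le _ _

theorem nrm_nsmul (k : ℕ) (t : Ix →₀ ℤ) : nrm (k • t) = k * nrm t := by
  classical
  rw [nrm_eq (k • t) t.support Finsupp.support_smul, nrm_eq t t.support subset_rfl,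
    Finset.mul_sum]
  refine Finset.sum_congr rfl fun x _ => ?_
  rw [Finsupp.smul_apply, nsmul_eq_mul]
  push_cast
  rw [abs_mul, Nat.abs_cast]
  ring

theorem nrm_neg (t : Ix →₀ ℤ) : nrm (-t) = nrm t := by
  rw [nrm_eq (-t) t.support (by simp), nrm_eq t t.support subset_rfl]
  simp

theorem nrm_zero : nrm 0 = 0 := by simp [nrm]

theorem eq_zero_of_nrm (t : Ix →₀ ℤ) (h : nrm t = 0) : t = 0 := by
  ext x
  have h1 := le_nrm t x
  rw [h] at h1
  have h2 : |(t x : ℝ)| * wt x = 0 :=
    le_antisymm h1 (mul_nonneg (abs_nonneg _) (wt_pos x).le)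
  have h3 : |(t x : ℝ)| = 0 := by
    rcases mul_eq_zero.1 h2 with h | h
    · exact h
    · exact absurd h (wt_pos x).ne'
  simpa using h3

/-- The group of finitely supported families of integers, with the weighted `ℓ¹` norm. -/
def T0 : Type := Ix →₀ ℤ

noncomputable instance : AddCommGroup T0 := inferInstanceAs (AddCommGroup (Ix →₀ ℤ))

/-- the norm of `T0` -/
noncomputable def T0norm : AddGroupNorm T0 where
  toFun := nrm
  map_zero' := nrm_zero
  add_le' := nrm_add
  neg' := nrm_neg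
  eq_zero_of_map_eq_zero' := eq_zero_of_nrm

noncomputable instance : NormedAddCommGroup T0 := T0norm.toNormedAddCommGroup

theorem norm_def (t : T0) : ‖t‖ = nrm t := rfl

/-- the underlying finitely supported family -/
noncomputable def T0.toF : T0 →+ (Ix →₀ ℤ) := AddMonoidHom.id (Ix →₀ ℤ)

/-- coordinates -/
def T0.ev (x : Ix) : T0 →+ ℤ := Finsupp.applyAddHom x

theorem le_norm (t : T0) (x : Ix) : |(T0.ev x t : ℝ)| * wt x ≤ ‖t‖ := le_nrm t x

theorem norm_nsmul_T0 (k : ℕ) (t : T0) : ‖k • t‖ = k * ‖t‖ := nrm_nsmul k t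

theorem T0.ext_ev {s t : T0} (h : ∀ x, T0.ev x s = T0.ev x t) : s = t :=
  Finsupp.ext h

theorem continuous_ev (x : Ix) : Continuous (T0.ev x) := by
  apply continuous_of_continuousAt_zero
  rw [ContinuousAt, map_zero]
  rw [nhds_discrete ℤ, tendsto_pure]
  have h1 : Metric.ball (0 : T0) (wt x) ∈ 𝓝 (0 : T0) := Metric.ball_mem_nhds _ (wt_pos x)
  filter_upwards [h1] with t ht
  rw [mem_ball_zero_iff] at ht
  have h2 := le_norm t x
  by_contra hne
  have h3 : (1 : ℝ) ≤ |(T0.ev x t : ℝ)| := by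
    have := Int.one_le_abs hne
    exact_mod_cast this
  nlinarith [wt_pos x]

/-- the basis vector -/
noncomputable def T0.e (x : Ix) : T0 := (Finsupp.single x (1 : ℤ) : Ix →₀ ℤ)

theorem norm_e (x : Ix) : ‖T0.e x‖ = wt x := by
  rw [norm_def, T0.e, nrm, Finsupp.sum_single_index] <;> simp

/-- `psi b i = ∑_j b (i,j) mod 2` -/
noncomputable def psi : (Ix →₀ ℤ) →+ (ℕ → ZMod 2) :=
  Finsupp.liftAddHom fun x => (AddMonoidHom.single (fun _ : ℕ => ZMod 2) x.1).comp
    (Int.castAddHom (ZMod 2))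

theorem psi_single (x : Ix) (a : ℤ) : psi (Finsupp.single x a) = Pi.single x.1 (a : ZMod 2) := by
  unfold psi
  rw [Finsupp.liftAddHom_apply_single]
  rfl

theorem psi_e (x : Ix) : psi (T0.toF (T0.e x)) = Pi.single x.1 1 := by
  have := psi_single x 1
  rw [Int.cast_one] at this
  exact this

theorem psi_even (b : Ix →₀ ℤ) (h : ∀ x, (b x : ZMod 2) = 0) : psi b = 0 := by
  unfold psi
  rw [Finsupp.liftAddHom_apply, Finsupp.sum]
  refine Finset.sum_eq_zero fun x _ => ?_
  simp [h x]

/-- reduction mod 2 -/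
def red : ZMod 4 →+ ZMod 2 := (ZMod.castHom (by norm_num : 2 ∣ 4) (ZMod 2)).toAddMonoidHom

theorem red_eq_zero (a : ZMod 4) : red a = 0 ↔ 2 * a = 0 := by
  revert a; decide

theorem red_surj (b : ZMod 2) : ∃ a, red a = b := by
  revert b; decide

theorem continuous_to_padic (x : Ix) : Continuous (fun t : T0 => ((T0.ev x t : ℤ) : ℤ_[3])) :=
  continuous_of_discreteTopology.comp (continuous_ev x)

theorem four_nsmul (l : ℕ → ZMod 4) : (4 : ℕ) • l = 0 := by
  have h4 : ∀ a : ZMod 4, (4 : ℕ) • a = 0 := by decide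
  ext i
  exact h4 _

/-- A minimal subgroup of a group of the shape of `H` has trivial first coordinate. -/
theorem minimal_fst_eq_zero {M : Type*} [AddCommGroup M] [τ : TopologicalSpace M]
    (t : M →+ T0) (l : M →+ (ℕ → ZMod 4)) (ht : Continuous t) (hl : Continuous l)
    (hinj : ∀ m, t m = 0 → l m = 0 → m = 0) (hmin : IsMinimalGroup M) (m : M) : t m = 0 := by
  obtain ⟨hM2, hMg, hMmin⟩ := hmin
  let P : M →+ (Ix → ℤ_[3]) := AddMonoidHom.pi fun x =>
    (Int.castAddHom ℤ_[3]).comp ((T0.ev x).comp t)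
  let F : M →+ (Ix → ℤ_[3]) × (ℕ → ZMod 4) := P.prod l
  have hFinj : Function.Injective F := by
    rw [injective_iff_map_eq_zero]
    intro a ha
    have h1 : P a = 0 := congrArg Prod.fst ha
    have h2 : l a = 0 := congrArg Prod.snd ha
    refine hinj a ?_ h2
    apply T0.ext_ev
    intro x
    have h3 : ((T0.ev x (t a) : ℤ) : ℤ_[3]) = 0 := congrFun h1 x
    rw [map_zero]
    exact_mod_cast h3
  have hFc : Continuous F := by
    refine Continuous.prodMk ?_ hl
    refine continuous_pi fun x => ?_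
    exact (continuous_to_padic x).comp ht
  have h4 : ∀ k : ℕ, l ((4 * 3 ^ k) • m) = 0 := by
    intro k
    rw [mul_comm, mul_smul, map_nsmul, map_nsmul, four_nsmul, smul_zero]
  have h5 : Tendsto (fun k : ℕ => F ((4 * 3 ^ k) • m)) atTop (𝓝 (F 0)) := by
    have h6 : Tendsto (fun k : ℕ => P ((4 * 3 ^ k) • m)) atTop (𝓝 (P 0)) := by
      rw [tendsto_pi_nhds]
      intro x
      have h7 : Tendsto (fun k : ℕ => (4 : ℤ_[3]) * (3 : ℤ_[3]) ^ k * ((T0.ev x (t m) : ℤ) : ℤ_[3]))
          atTop (𝓝 (4 * 0 * ((T0.ev x (t m) : ℤ) : ℤ_[3]))) := by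
        refine (Tendsto.const_mul _ ?_).mul_const _
        apply tendsto_pow_atTop_nhds_zero_of_norm_lt_one
        have := PadicInt.norm_p (p := 3)
        have h8 : ‖(3 : ℤ_[3])‖ = 3⁻¹ := by exact_mod_cast this
        rw [h8]; norm_num
      have h9 : P 0 x = 4 * 0 * ((T0.ev x (t m) : ℤ) : ℤ_[3]) := by
        rw [map_zero]; simp
      rw [h9]
      refine h7.congr fun k => ?_
      change _ = ((T0.ev x (t ((4 * 3 ^ k) • m)) : ℤ) : ℤ_[3])
      rw [map_nsmul, map_nsmul]
      simp
    have h10 : Tendsto (fun k : ℕ => l ((4 * 3 ^ k) • m)) atTop (𝓝 (l 0)) := by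
      rw [map_zero]
      simp only [h4]
      exact tendsto_const_nhds
    exact h6.prodMk_nhds h10
  have hσ := hMmin (TopologicalSpace.induced F inferInstance) (topologicalAddGroup_induced F)
    (by
      let _ : TopologicalSpace M := TopologicalSpace.induced F inferInstance
      exact T2Space.of_injective_continuous hFinj continuous_induced_dom)
    (continuous_iff_le_induced.1 hFc)
  have h11 : Tendsto (fun k : ℕ => (4 * 3 ^ k) • m) atTop (𝓝 (0 : M)) := by
    rw [← hσ, nhds_induced, tendsto_comap_iff]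
    exact h5
  have h12 : Tendsto (fun k : ℕ => ‖t ((4 * 3 ^ k) • m)‖) atTop (𝓝 ‖t 0‖) :=
    ((ht.norm.tendsto 0).comp h11)
  rw [map_zero, norm_zero] at h12
  have h13 : ∀ k : ℕ, ‖t m‖ ≤ ‖t ((4 * 3 ^ k) • m)‖ := by
    intro k
    rw [map_nsmul, norm_nsmul_T0]
    have : (1 : ℝ) ≤ ((4 * 3 ^ k : ℕ) : ℝ) := by
      exact_mod_cast Nat.one_le_iff_ne_zero.2 (by positivity)
    nlinarith [norm_nonneg (t m)]
  have h14 : ‖t m‖ ≤ 0 := ge_of_tendsto' h12 h13
  exact norm_le_zero_iff.1 h14

theorem not_almostMinimal {H : Type*} [AddCommGroup H] [TopologicalSpace H]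
    (t : H →+ T0) (l : H →+ (ℕ → ZMod 4)) (hind : IsInducing (fun h => (t h, l h)))
    (hinj : ∀ h, t h = 0 → l h = 0 → h = 0)
    (hrel : ∀ h i, red (l h i) = psi (T0.toF (t h)) i)
    (hsurj : ∀ (t0 : T0) (l0 : ℕ → ZMod 4), (∀ i, red (l0 i) = psi (T0.toF t0) i) →
      ∃ h, t h = t0 ∧ l h = l0) : ¬ IsAlmostMinimal H := by
  classical
  rintro ⟨M, -, hMmin, -, hQg, U, hU, -, hUb⟩
  have htl := hind.continuous
  have htc : Continuous t := continuous_fst.comp htl
  have hlc : Continuous l := continuous_snd.comp htl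
  have hM0 : ∀ m ∈ M, t m = 0 := by
    intro m hm
    exact minimal_fst_eq_zero (t.comp M.subtype) (l.comp M.subtype)
      (htc.comp continuous_subtype_val) (hlc.comp continuous_subtype_val)
      (fun a h1 h2 => Subtype.ext (hinj a.1 h1 h2)) hMmin ⟨m, hm⟩
  have hmkc : Continuous (QuotientAddGroup.mk : H → H ⧸ M) := continuous_quotient_mk'
  have hpre : (QuotientAddGroup.mk : H → H ⧸ M) ⁻¹' U ∈ 𝓝 (0 : H) :=
    hmkc.continuousAt.preimage_mem_nhds (by simpa using hU)
  obtain ⟨ε, hε, F, hF⟩ : ∃ ε > 0, ∃ F : Finset ℕ,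
      ∀ h : H, ‖t h‖ < ε → (∀ i ∈ F, l h i = 0) → (QuotientAddGroup.mk h : H ⧸ M) ∈ U := by
    have h1 := hind.nhds_eq_comap (0 : H)
    simp only [map_zero] at h1
    rw [h1, nhds_prod_eq, mem_comap] at hpre
    obtain ⟨W, hW, hWs⟩ := hpre
    rw [Filter.mem_prod_iff] at hW
    obtain ⟨A, hA, B, hB, hAB⟩ := hW
    obtain ⟨ε, hε, hεA⟩ := Metric.mem_nhds_iff.1 hA
    obtain ⟨F, -, hFB⟩ := basis_pi.mem_iff.1 hB
    refine ⟨ε, hε, F, fun h hh hl => hWs (hAB ⟨hεA ?_, hFB hl⟩)⟩
    rwa [mem_ball_zero_iff]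
  obtain ⟨i0, hi0⟩ := Infinite.exists_notMem_finset F
  have hO' : IsOpen {h : H | red (l h i0) = 0} := by
    have h2 : Continuous (fun h : H => l h i0) := (continuous_apply i0).comp hlc
    exact (isOpen_discrete {a : ZMod 4 | red a = 0}).preimage h2
  have hO : (QuotientAddGroup.mk : H → H ⧸ M) '' {h : H | red (l h i0) = 0} ∈ 𝓝 (0 : H ⧸ M) := by
    have hpm : QuotientAddGroup.mk ⁻¹' ((QuotientAddGroup.mk : H → H ⧸ M) ''
        {h : H | red (l h i0) = 0}) = {h : H | red (l h i0) = 0} := by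
      ext h
      constructor
      · rintro ⟨h', hh', heq⟩
        have h3 : -h' + h ∈ M := QuotientAddGroup.eq.1 heq
        have h4 : t h = t h' := by
          have := hM0 _ h3
          rw [map_add, map_neg, neg_add_eq_zero] at this
          exact this.symm
        have h5 : red (l h' i0) = 0 := hh'
        change red (l h i0) = 0
        rw [hrel] at h5 ⊢
        rw [h4]
        exact h5
      · intro hh
        exact ⟨h, hh, rfl⟩
    have hop : IsOpen ((QuotientAddGroup.mk : H → H ⧸ M) '' {h : H | red (l h i0) = 0}) := by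
      rw [← isQuotientMap_quotient_mk'.isOpen_preimage]
      exact (congrArg IsOpen hpm).mpr hO'
    refine hop.mem_nhds ⟨0, ?_, rfl⟩
    change red (l 0 i0) = 0
    simp
  obtain ⟨n, hn, hnO⟩ := hUb.mem_iff.1 hO
  have hn0 : (0 : ℝ) < n := by exact_mod_cast hn
  obtain ⟨j, hj⟩ := exists_pow_lt_of_lt_one (div_pos hε hn0) (by norm_num : (1 / 2 : ℝ) < 1)
  obtain ⟨h, hth, hlh⟩ := hsurj (T0.e (i0, j)) (Pi.single i0 1) (by
    intro i
    rw [psi_e]
    by_cases hi : i = i0
    · subst hi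
      simp only [Pi.single_eq_same]
      decide
    · rw [Pi.single_eq_of_ne hi, Pi.single_eq_of_ne hi, map_zero])
  have hmem : (QuotientAddGroup.mk h : H ⧸ M) ∈ oneDiv n U := by
    intro k _ hk
    have hk' : (k : ℝ) ≤ n := by exact_mod_cast hk
    have h6 : (QuotientAddGroup.mk (k • h) : H ⧸ M) ∈ U := by
      refine hF (k • h) ?_ ?_
      · rw [map_nsmul, norm_nsmul_T0, hth]
        have h7 : ‖T0.e (i0, j)‖ = (1 / 2) ^ j := norm_e (i0, j)
        rw [h7]
        have h8 : (1 / 2 : ℝ) ^ j * n < ε := by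
          rwa [lt_div_iff₀ hn0] at hj
        have h9 : (0 : ℝ) < (1 / 2) ^ j := by positivity
        nlinarith
      · intro i hi
        rw [map_nsmul, hlh, Pi.smul_apply]
        have : i ≠ i0 := fun h => hi0 (h ▸ hi)
        rw [Pi.single_eq_of_ne this, smul_zero]
    exact h6
  obtain ⟨h', hh', heq⟩ := hnO hmem
  have h3 : -h' + h ∈ M := QuotientAddGroup.eq.1 heq
  have h4 : t h = t h' := by
    have := hM0 _ h3
    rw [map_add, map_neg, neg_add_eq_zero] at this
    exact this.symm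
  have h5 : red (l h' i0) = 0 := hh'
  rw [hrel, ← h4, hth, psi_e, Pi.single_eq_same] at h5
  exact absurd h5 (by decide)

/-- ambient group -/
abbrev Amb : Type := T0 × (ℕ → ZMod 4) × (Ix → ZMod 4)

/-- The almost minimal group `G`: triples `(t, l, c)` for which there is a finitely supported
integer family `b` with `c ≡ b` and `l ≡ psi (t + b)` modulo two. -/
noncomputable def GG : AddSubgroup Amb where
  carrier := {p | ∃ b : Ix →₀ ℤ, (∀ x, red (p.2.2 x) = ((b x : ℤ) : ZMod 2)) ∧
    ∀ i, red (p.2.1 i) = psi (T0.toF p.1 + b) i}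
  zero_mem' := ⟨0, by simp, by
    intro i
    change red 0 = psi (T0.toF 0 + 0) i
    rw [map_zero, map_zero, add_zero, map_zero]
    rfl⟩
  add_mem' := by
    rintro p q ⟨b, hb1, hb2⟩ ⟨b', hb1', hb2'⟩
    refine ⟨b + b', ?_, ?_⟩
    · intro x
      change red (p.2.2 x + q.2.2 x) = _
      rw [map_add, hb1, hb1', Finsupp.add_apply]
      push_cast
      rfl
    · intro i
      change red (p.2.1 i + q.2.1 i) = psi (T0.toF (p.1 + q.1) + (b + b')) i
      rw [map_add, hb2, hb2', ← Pi.add_apply, ← map_add, map_add T0.toF, add_add_add_comm]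
  neg_mem' := by
    rintro p ⟨b, hb1, hb2⟩
    refine ⟨-b, ?_, ?_⟩
    · intro x
      change red (-(p.2.2 x)) = _
      rw [map_neg, hb1, Finsupp.neg_apply]
      push_cast
      rfl
    · intro i
      change red (-(p.2.1 i)) = psi (T0.toF (-p.1) + (-b)) i
      rw [map_neg, hb2, map_neg T0.toF, ← neg_add, map_neg]
      rfl

/-- first coordinate -/
noncomputable def fstG : GG →+ T0 := (AddMonoidHom.fst T0 ((ℕ → ZMod 4) × (Ix → ZMod 4))).comp GG.subtype

/-- third coordinate -/
noncomputable def thdG : GG →+ (Ix → ZMod 4) :=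
  ((AddMonoidHom.snd (ℕ → ZMod 4) (Ix → ZMod 4)).comp
    (AddMonoidHom.snd T0 ((ℕ → ZMod 4) × (Ix → ZMod 4)))).comp GG.subtype

theorem fstG_apply (g : GG) : fstG g = g.1.1 := rfl
theorem thdG_apply (g : GG) : thdG g = g.1.2.2 := rfl

/-- the closed minimal subgroup -/
noncomputable def NN : AddSubgroup GG := fstG.ker

/-- the closed subgroup `H` -/
noncomputable def HH : AddSubgroup GG := thdG.ker

theorem minimal_NN : IsMinimalGroup NN := by
  let e : NN →+ ((ℕ ⊕ Ix) → ZMod 4) :=
    { toFun := fun n => Sum.elim n.1.1.2.1 n.1.1.2.2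
      map_zero' := by
        ext x
        rcases x with x | x <;> rfl
      map_add' := by
        intro a b
        ext x
        rcases x with x | x <;> rfl }
  have hg : IsInducing (fun n : NN => n.1.1.2) := by
    have h1 : IsInducing (fun n : NN => n.1.1) := IsInducing.subtypeVal.comp IsInducing.subtypeVal
    have h2 : (fun n : NN => n.1.1) = (fun q => ((0 : T0), q)) ∘ (fun n : NN => n.1.1.2) := by
      ext1 n
      have : n.1.1.1 = 0 := n.2
      exact Prod.ext this rfl
    rw [h2] at h1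
    exact IsInducing.of_comp (continuous_snd.comp (continuous_subtype_val.comp continuous_subtype_val))
      (continuous_const.prodMk continuous_id) h1
  have he : IsInducing e := by
    have h3 : (e : NN → (ℕ ⊕ Ix) → ZMod 4) =
        (Homeomorph.sumArrowHomeomorphProdArrow (X := ZMod 4) (ι := ℕ) (ι' := Ix)).symm ∘
          (fun n : NN => n.1.1.2) := by
      ext1 n
      rfl
    rw [h3]
    exact (Homeomorph.isInducing _).comp hg
  refine minimal_of_inducing e he ?_ ?_
  · rw [injective_iff_map_eq_zero]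
    intro n hn
    have h1 : n.1.1.1 = 0 := n.2
    have h2 : n.1.1.2.1 = 0 := by
      ext i
      exact congrFun hn (Sum.inl i)
    have h3 : n.1.1.2.2 = 0 := by
      ext i
      exact congrFun hn (Sum.inr i)
    exact Subtype.ext (Subtype.ext (Prod.ext h1 (Prod.ext h2 h3)))
  · intro k hk
    refine ⟨⟨⟨(0, (fun i => k (Sum.inl i)), (fun x => k (Sum.inr x))), ⟨0, ?_, ?_⟩⟩, rfl⟩, ?_⟩
    · intro x
      simp only [Finsupp.coe_zero, Pi.zero_apply, Int.cast_zero]
      exact (red_eq_zero _).2 (hk _)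
    · intro i
      change red (k (Sum.inl i)) = psi (T0.toF 0 + 0) i
      rw [add_zero, map_zero, map_zero]
      exact (red_eq_zero _).2 (hk _)
    · ext x
      rcases x with x | x <;> rfl

theorem ufss_GG_NN : IsClosed (NN : Set GG) ∧ IsUFSS (GG ⧸ NN) := by
  classical
  have hfc : Continuous fstG := continuous_fst.comp continuous_subtype_val
  refine ufss_quotient norm_nsmul_T0 fstG hfc NN (fun g => Iff.rfl) ?_
  intro W hW
  rw [nhds_induced, mem_comap] at hW
  obtain ⟨V, hV, hVW⟩ := hW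
  have hV' : V ∈ 𝓝 ((0 : T0), (0 : ℕ → ZMod 4), (0 : Ix → ZMod 4)) := hV
  rw [nhds_prod_eq, nhds_prod_eq, Filter.mem_prod_iff] at hV'
  obtain ⟨A, hA, B, hB, hAB⟩ := hV'
  rw [Filter.mem_prod_iff] at hB
  obtain ⟨B1, hB1, B2, hB2, hBB⟩ := hB
  obtain ⟨ε, hε, hεA⟩ := Metric.mem_nhds_iff.1 hA
  obtain ⟨F, -, hF⟩ := basis_pi.mem_iff.1 hB2
  refine ⟨ε, hε, fun g hg => ?_⟩
  obtain ⟨⟨t, l, c⟩, b, hb1, hb2⟩ := g
  simp only at hb1 hb2
  -- an index beyond F
  obtain ⟨J, hJ⟩ : ∃ J : ℕ, ∀ x ∈ F, x.2 ≠ J := by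
    obtain ⟨J, hJ⟩ := Infinite.exists_notMem_finset (F.image Prod.snd)
    exact ⟨J, fun x hx h => hJ (Finset.mem_image.2 ⟨x, hx, h⟩)⟩
  let t' : Ix →₀ ℤ := Finsupp.mapDomain (fun x : Ix => (x.1, J)) (T0.toF t)
  have ht'0 : ∀ x ∈ F, t' x = 0 := by
    intro x hx
    apply Finsupp.mapDomain_of_notMem_range
    rintro ⟨y, hy⟩
    exact hJ x hx (by rw [← hy])
  have ht'psi : psi t' = psi (T0.toF t) := by
    have h1 : (psi.comp (Finsupp.mapDomain.addMonoidHom (fun x : Ix => (x.1, J)))) = psi := by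
      apply Finsupp.addHom_ext
      intro x a
      rw [AddMonoidHom.comp_apply, Finsupp.mapDomain.addMonoidHom_apply,
        Finsupp.mapDomain_single, psi_single, psi_single]
    exact DFunLike.congr_fun h1 (T0.toF t)
  have hmem : ((0 : T0), l, fun x => c x + ((t' x : ℤ) : ZMod 4)) ∈ GG := by
    refine ⟨b + t', ?_, ?_⟩
    · intro x
      change red (c x + ((t' x : ℤ) : ZMod 4)) = _
      rw [map_add, hb1, Finsupp.add_apply]
      push_cast
      congr 1
      change (ZMod.castHom (by norm_num : 2 ∣ 4) (ZMod 2)) ((t' x : ℤ) : ZMod 4) = _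
      rw [map_intCast]
    · intro i
      change red (l i) = psi (T0.toF 0 + (b + t')) i
      rw [hb2, map_zero, zero_add, map_add, map_add, ht'psi, add_comm]
  refine ⟨⟨_, hmem⟩, rfl, hVW ?_⟩
  change ((t, l, c) - ((0 : T0), l, fun x => c x + ((t' x : ℤ) : ZMod 4)) : Amb) ∈ V
  refine hAB ⟨hεA ?_, hBB ⟨?_, hF ?_⟩⟩
  · rw [mem_ball_zero_iff]
    change ‖t - 0‖ < ε
    rw [sub_zero]
    exact hg
  · have : l - l ∈ B1 := by
      rw [sub_self]
      exact mem_of_mem_nhds hB1
    exact this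
  · intro x hx
    change c x - (c x + ((t' x : ℤ) : ZMod 4)) = 0
    rw [ht'0 x hx]
    simp

theorem not_almostMinimal_HH : ¬ IsAlmostMinimal HH := by
  refine not_almostMinimal (H := HH) (fstG.comp HH.subtype)
    (((AddMonoidHom.fst (ℕ → ZMod 4) (Ix → ZMod 4)).comp
      (AddMonoidHom.snd T0 ((ℕ → ZMod 4) × (Ix → ZMod 4)))).comp (GG.subtype.comp HH.subtype))
    ?_ ?_ ?_ ?_
  · have h1 : IsInducing (fun n : HH => n.1.1) := IsInducing.subtypeVal.comp IsInducing.subtypeVal
    have h2 : (fun n : HH => n.1.1) = (fun q : T0 × (ℕ → ZMod 4) => (q.1, q.2, (0 : Ix → ZMod 4))) ∘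
        (fun n : HH => (n.1.1.1, n.1.1.2.1)) := by
      ext1 n
      have : n.1.1.2.2 = 0 := n.2
      exact Prod.ext rfl (Prod.ext rfl this)
    rw [h2] at h1
    have hc : Continuous (fun n : HH => n.1.1) := continuous_subtype_val.comp continuous_subtype_val
    exact IsInducing.of_comp ((continuous_fst.comp hc).prodMk
      (continuous_fst.comp (continuous_snd.comp hc)))
      (continuous_fst.prodMk (continuous_snd.prodMk continuous_const)) h1
  · intro h h1 h2
    have h3 : h.1.1.2.2 = 0 := h.2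
    exact Subtype.ext (Subtype.ext (Prod.ext h1 (Prod.ext h2 h3)))
  · intro h i
    obtain ⟨⟨⟨t, l, c⟩, b, hb1, hb2⟩, hc⟩ := h
    have hc' : c = 0 := hc
    have hb : psi b = 0 := by
      apply psi_even
      intro x
      rw [← hb1 x]
      change red (c x) = 0
      rw [hc']
      simp
    have := hb2 i
    rw [map_add, hb, add_zero] at this
    exact this
  · intro t0 l0 h
    refine ⟨⟨⟨(t0, l0, 0), 0, ?_, ?_⟩, rfl⟩, rfl, rfl⟩
    · intro x
      simp
    · intro i
      change red (l0 i) = psi (T0.toF t0 + 0) i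
      rw [add_zero]
      exact h i

/-- **Q1, negative answer.**  There are an almost minimal abelian topological group `G` and a
closed subgroup `H` of `G` such that `H`, with the subspace topology, is not almost minimal. -/
theorem result : ∃ (G : Type) (_ : AddCommGroup G) (_ : TopologicalSpace G)
    (_ : IsTopologicalAddGroup G) (H : AddSubgroup G),
    IsAlmostMinimal G ∧ IsClosed (H : Set G) ∧ ¬ IsAlmostMinimal H := by
  refine ⟨GG, inferInstance, inferInstance, inferInstance, HH, ⟨NN, ufss_GG_NN.1, minimal_NN,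
    ufss_GG_NN.2⟩, ?_, not_almostMinimal_HH⟩
  have hc : Continuous (fun g : GG => g.1.2.2) :=
    continuous_snd.comp (continuous_snd.comp continuous_subtype_val)
  have : (HH : Set GG) = (fun g : GG => g.1.2.2) ⁻¹' {0} := by
    ext g
    rfl
  rw [this]
  exact isClosed_singleton.preimage hc

end Pool.Agent.Results.MP_e403d1_gt.ClosedSubgroupCounterexample
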